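import Pool.Agent.U3.NA.Final

/-!
# The average `N`-adic complexity of the words of length `n` is `n / 2 + O(1)`

Definitions: `EventuallyPeriodic`, `IsFraction` (and `prefixValue`) are in
`Pool/Agent/Results/MP_8b2777_lc/NonPrimePowerDisproof.lean`, `wordComplexity` and
`averageComplexity` in `Pool/Agent/U3/NA/Defs.lean`.

## Idea of the proof

Put `Q = N ^ n`.  The complexity of the word with the residue `A` modulo `Q` is the logarithm of the
smallest norm `m(A) = max(|u|, |g|)` of a vector `(u, g)` of the lattice `u = g A` modulo `Q` with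
`g` prime to `N`.

* At most `j (2 j + 1)` residues have `m(A) ≤ j`, so `∑ 1 / m(A) ≤ 2 √(2 Q)`, and the lower bound
  follows from Jensen's inequality.
* Let `D(A)` be the norm of a shortest nonzero vector of the lattice.  At most `5 j (j + 1) / 2`
  residues have `D(A) ≤ j` (for given `g` at most `2 j + g` residues), so `∑ 1 / D(A) ≤ √(10 Q)`.
* If a shortest vector is not admissible then at least one prime divisor of `N` divides its second
  entry; a sieve with the other prime divisors gives an admissible vector among the translates of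
  the second vector of a reduced basis, and `m(A) D(A) ≤ (1 + ω 2 ^ (ω - 1) / 2) Q`, where `ω` is the
  number of prime divisors of `N`.  Jensen's inequality for `D` gives the upper bound.
-/

set_option autoImplicit false

namespace Pool.Agent.Results.MP_68df70_lc.AverageComplexity

open Pool.Agent.U3.NA

theorem log_bound {N : ℕ} (hN : 2 ≤ N) :
    Real.logb N (Real.sqrt 10 *
      (1 + N.primeFactors.card * 2 ^ (N.primeFactors.card - 1) / 2)) ≤ 9 / 4 := by
  set w := N.primeFactors.card with hw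
  have hw1 : 1 ≤ w := by
    rw [hw, Nat.succ_le_iff, Finset.card_pos, Nat.nonempty_primeFactors]
    omega
  have hN1 : (1 : ℝ) < N := by exact_mod_cast (by omega : 1 < N)
  have hlogN : 0 < Real.log N := Real.log_pos hN1
  have hlog2 : 0 < Real.log 2 := Real.log_pos (by norm_num)
  have h1 : w * Real.log 2 ≤ Real.log N := by
    rw [← Real.log_pow]
    apply Real.log_le_log (by positivity)
    have : 2 ^ w ≤ N := by
      calc 2 ^ w = ∏ _p ∈ N.primeFactors, 2 := by rw [Finset.prod_const]
        _ ≤ ∏ p ∈ N.primeFactors, p :=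
          Finset.prod_le_prod' fun p hp => (Nat.prime_of_mem_primeFactors hp).two_le
        _ ≤ N := Nat.le_of_dvd (by omega) (Nat.prod_primeFactors_dvd N)
    exact_mod_cast this
  obtain ⟨v, hv⟩ : ∃ v, w = v + 1 := ⟨w - 1, by omega⟩
  have h2 : (1 + (w : ℝ) * 2 ^ (w - 1) / 2) ≤ 3 / 2 * 4 ^ v := by
    have h3 : (w : ℝ) ≤ 2 ^ v := by
      rw [hv]
      exact_mod_cast Nat.lt_two_pow_self (n := v)
    have h4 : (2 : ℝ) ^ v * 2 ^ v = 4 ^ v := by rw [← mul_pow]; norm_num
    have h5 : (1 : ℝ) ≤ 4 ^ v := one_le_pow₀ (by norm_num)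
    have h6 : w - 1 = v := by omega
    rw [h6]
    have h7 : (w : ℝ) * 2 ^ v ≤ 2 ^ v * 2 ^ v := by gcongr
    linarith
  have h10 : 0 < Real.sqrt 10 := Real.sqrt_pos.2 (by norm_num)
  have h3 : Real.log (Real.sqrt 10 * (3 / 2)) ≤ 9 / 4 * Real.log 2 := by
    have e : Real.log (Real.sqrt 10 * (3 / 2)) = 1 / 4 * Real.log ((Real.sqrt 10 * (3 / 2)) ^ 4) := by
      rw [Real.log_pow]; push_cast; ring
    have e2 : 9 / 4 * Real.log 2 = 1 / 4 * Real.log (2 ^ 9) := by
      rw [Real.log_pow]; push_cast; ring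
    rw [e, e2]
    have h4 : (Real.sqrt 10 * (3 / 2)) ^ 4 ≤ (2 : ℝ) ^ 9 := by
      have h5 : Real.sqrt 10 ^ 4 = 100 := by
        have : Real.sqrt 10 ^ 4 = (Real.sqrt 10 ^ 2) ^ 2 := by ring
        rw [this, Real.sq_sqrt (by norm_num)]
        norm_num
      rw [mul_pow, h5]
      norm_num
    have := Real.log_le_log (by positivity) h4
    linarith
  rw [Real.logb, div_le_iff₀ hlogN]
  calc Real.log (Real.sqrt 10 * (1 + w * 2 ^ (w - 1) / 2))
      ≤ Real.log (Real.sqrt 10 * (3 / 2) * 4 ^ v) := by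
        apply Real.log_le_log (by positivity)
        rw [mul_assoc]
        gcongr
    _ = Real.log (Real.sqrt 10 * (3 / 2)) + v * Real.log 4 := by
        rw [Real.log_mul (by positivity) (by positivity), Real.log_pow]
    _ ≤ 9 / 4 * Real.log 2 + v * (2 * Real.log 2) := by
        have : Real.log 4 = 2 * Real.log 2 := by
          rw [show (4 : ℝ) = 2 ^ 2 by norm_num, Real.log_pow]
          norm_num
        rw [this]
        linarith
    _ ≤ 9 / 4 * (w * Real.log 2) := by
        rw [hv]
        push_cast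
        have : (0 : ℝ) ≤ v := Nat.cast_nonneg v
        nlinarith
    _ ≤ 9 / 4 * Real.log N := by linarith

theorem log_bound' {N : ℕ} (hN : 2 ≤ N) : Real.logb N (2 * Real.sqrt 2) ≤ 3 / 2 := by
  have hN2 : (2 : ℝ) ≤ N := by exact_mod_cast hN
  have hlogN : 0 < Real.log N := Real.log_pos (by linarith)
  have h2 : Real.log 2 ≤ Real.log N := Real.log_le_log (by norm_num) hN2
  rw [Real.logb, div_le_iff₀ hlogN, Real.log_mul (by norm_num) (by positivity),
    Real.log_sqrt (by norm_num)]
  linarith

/-- **The average `N`-adic complexity `E` of the words of length `n ≥ 1` over `{0, ..., N - 1}`.**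

(1) `n / 2 - log_N (2 √2) ≤ E ≤ n / 2 + log_N (√10 (1 + ω 2 ^ (ω - 1) / 2))`, where `ω` is the number
of prime divisors of `N`.
(2) `|E - n / 2| ≤ 9 / 4` for all `N` and `n`.
(3) `E - n / 2` tends to `0` as `N` tends to infinity, uniformly in `n`. -/
theorem result :
    (∀ N : ℕ, 2 ≤ N → ∀ n : ℕ, 1 ≤ n →
      (n : ℝ) / 2 - Real.logb N (2 * Real.sqrt 2) ≤ averageComplexity N n ∧
      averageComplexity N n ≤ (n : ℝ) / 2 + Real.logb N (Real.sqrt 10 *
        (1 + N.primeFactors.card * 2 ^ (N.primeFactors.card - 1) / 2))) ∧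
    (∀ N : ℕ, 2 ≤ N → ∀ n : ℕ, 1 ≤ n → |averageComplexity N n - (n : ℝ) / 2| ≤ 9 / 4) ∧
    (∀ ε : ℝ, 0 < ε → ∃ N₀ : ℕ, ∀ N : ℕ, N₀ ≤ N → ∀ n : ℕ, 1 ≤ n →
      |averageComplexity N n - (n : ℝ) / 2| ≤ ε) := by
  refine ⟨fun N hN n hn => ⟨lower_bound hN n, upper_bound hN hn⟩, fun N hN n hn => ?_,
    fun ε hε => ?_⟩
  · have h1 := lower_bound hN n
    have h2 := upper_bound hN hn
    have h3 := log_bound hN
    have h4 := log_bound' hN
    rw [abs_le]
    constructor <;> linarith
  · obtain ⟨N₀, h⟩ := tendsto_bounds ε hε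
    refine ⟨max N₀ 2, fun N hN n hn => ?_⟩
    have hN2 : 2 ≤ N := (le_max_right _ _).trans hN
    obtain ⟨h3, h4⟩ := h N ((le_max_left _ _).trans hN)
    have h1 := lower_bound hN2 n
    have h2 := upper_bound hN2 hn
    rw [abs_le]
    constructor <;> linarith

end Pool.Agent.Results.MP_68df70_lc.AverageComplexity
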